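import Mathlib
import Pool.Agent.Helper180.Grig.Final

/-! The elementary theory of the Grigorchuk group is undecidable. -/

namespace Pool.Agent.Results.MP_68c508_lc.Undecidable

open Pool.Agent.Helper180.Defs Pool.Agent.Helper180.Grig

/-- sanity check: the Goedel numbering is injective -/
theorem code_injective : Function.Injective Formula.code :=
  fun φ ψ h => Pool.Agent.Helper180.FO.code_injective φ ψ h

/-- sanity check: the recursive definition of the generators, as in the problem -/
theorem generators (w : List Bool) :
    pa (false :: w) = true :: w ∧ pa (true :: w) = false :: w ∧
    pb (false :: w) = false :: pa w ∧ pb (true :: w) = true :: pc w ∧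
    pc (false :: w) = false :: pa w ∧ pc (true :: w) = true :: pd w ∧
    pd (false :: w) = false :: w ∧ pd (true :: w) = true :: pb w ∧
    pa [] = [] ∧ pb [] = [] ∧ pc [] = [] ∧ pd [] = [] := by
  simp

/-- No algorithm decides, for every first-order sentence in the language of groups, whether it is
true in the Grigorchuk group. -/
theorem result : ¬ IsDecidable theoryGr := undecidable

end Pool.Agent.Results.MP_68c508_lc.Undecidable
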